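import Pool.Agent.Helper38.RS.Goals3
import Pool.Agent.Helper88.RS.DG1

/-!
# Project RS, packet RS-QEX: choice of the prime `𝔮`
-/

namespace Pool.Agent.Helper99.RS

open NumberField Module IsDedekindDomain
open Pool.Agent.Helper38.RS

section aux

variable {F : Type} [Field F] [NumberField F]

theorem norm_ne_zero (v : HeightOneSpectrum (𝓞 F)) : Ideal.absNorm v.asIdeal ≠ 0 := by
  rw [Ne, Ideal.absNorm_eq_zero_iff]
  exact v.ne_bot

theorem one_le_norm (v : HeightOneSpectrum (𝓞 F)) : (1 : ℝ) ≤ (Ideal.absNorm v.asIdeal : ℝ) := by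
  exact_mod_cast Nat.one_le_iff_ne_zero.2 (norm_ne_zero v)

theorem lp_le_norm (v : HeightOneSpectrum (𝓞 F)) :
    Pool.Agent.Helper88.RS.lp v ≤ Ideal.absNorm v.asIdeal := by
  by_cases hv : (Ideal.absNorm v.asIdeal).Prime
  · have := v.isPrime
    have := Pool.Agent.Helper88.RS.lp_liesOver v
    obtain ⟨f, hN⟩ : ∃ f : ℕ, Ideal.absNorm v.asIdeal = Pool.Agent.Helper88.RS.lp v ^ f :=
      ⟨_, Ideal.absNorm_eq_pow_inertiaDeg' v.asIdeal (Pool.Agent.Helper88.RS.lp_prime v)⟩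
    have hd : Pool.Agent.Helper88.RS.lp v ∣ Ideal.absNorm v.asIdeal := by
      rcases Nat.eq_zero_or_pos f with h | h
      · exfalso
        rw [h, pow_zero] at hN
        rw [hN] at hv
        exact Nat.not_prime_one hv
      · rw [hN]
        exact dvd_pow_self _ h.ne'
    exact Nat.le_of_dvd (Nat.pos_of_ne_zero (norm_ne_zero v)) hd
  · refine le_trans ?_ (Pool.Agent.Helper88.RS.sq_le_norm v hv)
    exact Nat.le_self_pow (by norm_num) _

/-- `∑_v N(v)^(-s)` converges for `s > 1`. -/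
theorem summable_norm (s : ℝ) (hs : 1 < s) :
    Summable fun v : HeightOneSpectrum (𝓞 F) ↦ (Ideal.absNorm v.asIdeal : ℝ) ^ (-s) := by
  classical
  have hsum : Summable (fun n : ℕ => (n : ℝ) ^ (-s)) :=
    Real.summable_nat_rpow.mpr (by linarith)
  refine summable_of_sum_le (c := (finrank ℚ F : ℝ) * ∑' n : ℕ, (n : ℝ) ^ (-s))
    (fun v => by positivity) fun T => ?_
  have h0 : ∑ v ∈ T, (Ideal.absNorm v.asIdeal : ℝ) ^ (-s)
      ≤ ∑ v ∈ T, (Pool.Agent.Helper88.RS.lp v : ℝ) ^ (-s) := by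
    refine Finset.sum_le_sum fun v _ => ?_
    have hp : (0 : ℝ) < (Pool.Agent.Helper88.RS.lp v : ℝ) := by
      exact_mod_cast (Pool.Agent.Helper88.RS.lp_prime v).pos
    exact Real.rpow_le_rpow_of_nonpos hp (by exact_mod_cast lp_le_norm v) (by linarith)
  refine h0.trans ?_
  have h1 : ∑ v ∈ T, (Pool.Agent.Helper88.RS.lp v : ℝ) ^ (-s)
      = ∑ p ∈ T.image Pool.Agent.Helper88.RS.lp,
          ∑ v ∈ T.filter (fun v => Pool.Agent.Helper88.RS.lp v = p),
            (Pool.Agent.Helper88.RS.lp v : ℝ) ^ (-s) :=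
    (Finset.sum_fiberwise_of_maps_to
      (fun v hv => Finset.mem_image_of_mem Pool.Agent.Helper88.RS.lp hv) _).symm
  have h2 : ∀ p ∈ T.image Pool.Agent.Helper88.RS.lp,
      ∑ v ∈ T.filter (fun v => Pool.Agent.Helper88.RS.lp v = p),
        (Pool.Agent.Helper88.RS.lp v : ℝ) ^ (-s)
      ≤ (finrank ℚ F : ℝ) * ((p : ℝ) ^ (-s)) := by
    intro p _
    have h3 : ∑ v ∈ T.filter (fun v => Pool.Agent.Helper88.RS.lp v = p),
        (Pool.Agent.Helper88.RS.lp v : ℝ) ^ (-s)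
        = ∑ v ∈ T.filter (fun v => Pool.Agent.Helper88.RS.lp v = p), (p : ℝ) ^ (-s) := by
      refine Finset.sum_congr rfl fun v hv => ?_
      rw [(Finset.mem_filter.mp hv).2]
    rw [h3, Finset.sum_const, nsmul_eq_mul]
    refine mul_le_mul_of_nonneg_right ?_ (by positivity)
    exact_mod_cast Pool.Agent.Helper88.RS.card_fibre T p
  rw [h1]
  refine (Finset.sum_le_sum h2).trans ?_
  rw [← Finset.mul_sum]
  refine mul_le_mul_of_nonneg_left ?_ (by positivity)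
  exact hsum.sum_le_tsum _ (fun n _ => by positivity)

theorem pz_eq (S : Set (HeightOneSpectrum (𝓞 F))) (s : ℝ) :
    pz S s = ∑' v, S.indicator (fun v : HeightOneSpectrum (𝓞 F) ↦
      (Ideal.absNorm v.asIdeal : ℝ) ^ (-s)) v := by
  unfold pz
  exact tsum_subtype S (fun v : HeightOneSpectrum (𝓞 F) ↦ (Ideal.absNorm v.asIdeal : ℝ) ^ (-s))

theorem pz_mono {S T : Set (HeightOneSpectrum (𝓞 F))} (h : S ⊆ T) (s : ℝ) (hs : 1 < s) :
    pz S s ≤ pz T s := by
  rw [pz_eq, pz_eq]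
  refine Summable.tsum_le_tsum (fun v => ?_) ((summable_norm s hs).indicator _)
    ((summable_norm s hs).indicator _)
  exact Set.indicator_le_indicator_of_subset h (fun v => by positivity) v

theorem pz_union (S T : Set (HeightOneSpectrum (𝓞 F))) (s : ℝ) (hs : 1 < s) :
    pz (S ∪ T) s ≤ pz S s + pz T s := by
  rw [pz_eq, pz_eq, pz_eq, ← Summable.tsum_add ((summable_norm s hs).indicator _)
    ((summable_norm s hs).indicator _)]
  refine Summable.tsum_le_tsum (fun v => ?_) ((summable_norm s hs).indicator _)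
    (((summable_norm s hs).indicator _).add ((summable_norm s hs).indicator _))
  have h0 : (0 : ℝ) ≤ (Ideal.absNorm v.asIdeal : ℝ) ^ (-s) := by positivity
  by_cases h1 : v ∈ S <;> by_cases h2 : v ∈ T <;> simp [h1, h2, h0]

theorem pz_finite {S : Set (HeightOneSpectrum (𝓞 F))} (hS : S.Finite) (s : ℝ) (hs : 1 < s) :
    pz S s ≤ (hS.toFinset.card : ℝ) := by
  classical
  have : Fintype S := hS.fintype
  unfold pz
  rw [tsum_fintype]
  calc ∑ v : S, (Ideal.absNorm v.1.asIdeal : ℝ) ^ (-s) ≤ ∑ v : S, (1 : ℝ) := by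
        refine Finset.sum_le_sum fun v _ => ?_
        exact Real.rpow_le_one_of_one_le_of_nonpos (one_le_norm v.1) (by linarith)
    _ = (hS.toFinset.card : ℝ) := by
        rw [Finset.sum_const, nsmul_eq_mul, mul_one, Finset.card_univ]
        congr 1
        rw [← Set.toFinset_card]
        congr 1
        ext v
        simp

theorem finite_bad {x : F} (hx : x ≠ 0) :
    {w : HeightOneSpectrum (𝓞 F) | w.valuation F x ≠ 1}.Finite := by
  obtain ⟨a, b, hb, hab⟩ := IsFractionRing.div_surjective (A := 𝓞 F) x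
  have hb0 : b ≠ 0 := nonZeroDivisors.ne_zero hb
  have ha0 : a ≠ 0 := by
    rintro rfl
    apply hx
    rw [← hab, map_zero, zero_div]
  have h1 : ∀ y : 𝓞 F, y ≠ 0 → {w : HeightOneSpectrum (𝓞 F) | y ∈ w.asIdeal}.Finite := by
    intro y hy
    have h := Ideal.finite_factors (I := Ideal.span {y}) (by
      rwa [Ne, Ideal.zero_eq_bot, Ideal.span_singleton_eq_bot])
    refine h.subset ?_
    intro w hw
    exact (Ideal.dvd_span_singleton).2 hw
  refine ((h1 a ha0).union (h1 b hb0)).subset ?_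
  intro w hw
  by_contra hcon
  rw [Set.mem_union, Set.mem_setOf_eq, Set.mem_setOf_eq, not_or] at hcon
  apply hw
  rw [← hab, map_div₀, (HeightOneSpectrum.valuation_eq_one_iff_notMem w).2 hcon.1,
    (HeightOneSpectrum.valuation_eq_one_iff_notMem w).2 hcon.2, div_one]

/-- If the norm of `v` is a prime number, every algebraic integer is congruent to an integer. -/
theorem exists_int (v : HeightOneSpectrum (𝓞 F)) (hv : (Ideal.absNorm v.asIdeal).Prime)
    (θ : 𝓞 F) : ∃ n : ℤ, θ - (n : 𝓞 F) ∈ v.asIdeal := by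
  have hcard : (Nat.card (𝓞 F ⧸ v.asIdeal)).Prime := by
    have h : Ideal.absNorm v.asIdeal = Nat.card (𝓞 F ⧸ v.asIdeal) := by
      rw [Ideal.absNorm_apply]
      rfl
    rwa [h] at hv
  have : Fact (Nat.card (𝓞 F ⧸ v.asIdeal)).Prime := ⟨hcard⟩
  have := v.isPrime
  have hnt : Nontrivial (𝓞 F ⧸ v.asIdeal) := Ideal.Quotient.nontrivial_iff.2 v.isPrime.ne_top
  have hrange : (Int.castAddHom (𝓞 F ⧸ v.asIdeal)).range = ⊤ := by
    rcases AddSubgroup.eq_bot_or_eq_top_of_prime_card (Int.castAddHom (𝓞 F ⧸ v.asIdeal)).range with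
      h | h
    · exfalso
      have h1 : (1 : 𝓞 F ⧸ v.asIdeal) ∈ (Int.castAddHom (𝓞 F ⧸ v.asIdeal)).range :=
        ⟨1, by simp⟩
      rw [h, AddSubgroup.mem_bot] at h1
      exact one_ne_zero h1
    · exact h
  have h2 : Ideal.Quotient.mk v.asIdeal θ ∈ (Int.castAddHom (𝓞 F ⧸ v.asIdeal)).range := by
    rw [hrange]
    trivial
  obtain ⟨n, hn⟩ := h2
  refine ⟨n, ?_⟩
  rw [← Ideal.Quotient.eq_zero_iff_mem, map_sub, map_intCast, sub_eq_zero]
  exact hn.symm

theorem exists_move {K : Type} [Field K] [Algebra K F] (g : F ≃ₐ[K] F) (hg : g ≠ 1) :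
    ∃ θ : 𝓞 F, g (θ : F) - (θ : F) ≠ 0 := by
  by_contra hcon
  push Not at hcon
  apply hg
  ext y
  obtain ⟨a, b, hb, hab⟩ := IsFractionRing.div_surjective (A := 𝓞 F) y
  have ha := sub_eq_zero.1 (hcon a)
  have hb' := sub_eq_zero.1 (hcon b)
  rw [← hab, map_div₀, AlgEquiv.one_apply]
  exact congrArg₂ _ ha hb'

end aux

/-- Packet RS-QEX. -/
theorem s_qex (h1 : S_HLF) (h2 : S_DG1) (h3 : S_KUM) : Pool.Agent.Helper38.RS.S_QEX := by
  intro K M _ _ _ _ _ _ _ 𝔪 ψ hψ δ x₀ hx hxx Z hZ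
  classical
  obtain ⟨C₁, hC₁⟩ := h1 M 𝔪 ψ hψ
  obtain ⟨C₂, hC₂⟩ := h2 M
  have hx0 : (x₀ : M) ≠ 0 := x₀.ne_zero
  have hy0 : δ (x₀ : M) ≠ 0 := by
    rw [Ne, map_eq_zero_iff δ δ.injective]
    exact hx0
  have hsqx : ¬ ∃ z : M, z ^ 2 = (x₀ : M) := by
    rintro ⟨z, hz⟩
    have hz0 : z ≠ 0 := by
      rintro rfl
      exact hx0 (by rw [← hz]; ring)
    exact hx ⟨Units.mk0 z hz0, Units.ext (by simp [hz])⟩
  have hsqy : ¬ ∃ z : M, z ^ 2 = δ (x₀ : M) := by
    rintro ⟨z, hz⟩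
    apply hsqx
    refine ⟨δ.symm z, ?_⟩
    rw [← map_pow, hz, AlgEquiv.symm_apply_apply]
  have hsqxy : ¬ ∃ z : M, z ^ 2 = (x₀ : M) * δ (x₀ : M) := by
    rintro ⟨z, hz⟩
    have hz0 : z ≠ 0 := by
      rintro rfl
      exact mul_ne_zero hx0 hy0 (by rw [← hz]; ring)
    exact hxx ⟨Units.mk0 z hz0, Units.ext (by simp [hz])⟩
  obtain ⟨C₃, hC₃⟩ := h3 M (x₀ : M) (δ (x₀ : M)) hx0 hy0 hsqx hsqy hsqxy
  -- the exceptional finite set
  choose θ hθ using fun g : {g : M ≃ₐ[K] M // g ≠ 1} => exists_move g.1 g.2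
  have hfinG : Finite (M ≃ₐ[K] M) := inferInstance
  have hR1 : {w : HeightOneSpectrum (𝓞 M) | w.valuation M 2 ≠ 1}.Finite :=
    finite_bad two_ne_zero
  have hR2 : (⋃ g : {g : M ≃ₐ[K] M // g ≠ 1},
      {w : HeightOneSpectrum (𝓞 M) |
        w.valuation M (g.1 (θ g : M) - (θ g : M)) ≠ 1}).Finite := by
    refine Set.finite_iUnion fun g => ?_
    exact finite_bad (hθ g)
  have hR := (hR1.union hR2).union hZ
  set R : Set (HeightOneSpectrum (𝓞 M)) :=
    ({w : HeightOneSpectrum (𝓞 M) | w.valuation M 2 ≠ 1} ∪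
      ⋃ g : {g : M ≃ₐ[K] M // g ≠ 1},
      {w : HeightOneSpectrum (𝓞 M) |
        w.valuation M (g.1 (θ g : M) - (θ g : M)) ≠ 1}) ∪ Z with hRdef
  by_contra hcon
  push Not at hcon
  -- the covering
  have hcov : {v : HeightOneSpectrum (𝓞 M) | ψ v.asIdeal = -1} ⊆
      ({v : HeightOneSpectrum (𝓞 M) | v.valuation M 2 = 1 ∧ LocSq v (x₀ : M) ∧
        LocSq v (δ (x₀ : M))} ∪
      {v : HeightOneSpectrum (𝓞 M) | ¬ (Ideal.absNorm v.asIdeal).Prime}) ∪ R := by
    intro v hv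
    rw [Set.mem_setOf_eq] at hv
    by_contra hn
    rw [Set.mem_union, Set.mem_union, not_or, not_or, hRdef, Set.mem_union, Set.mem_union,
      not_or, not_or] at hn
    obtain ⟨⟨hn1, hn2⟩, ⟨hn3, hn4⟩, hn5⟩ := hn
    rw [Set.mem_setOf_eq, not_not] at hn2 hn3
    rw [Set.mem_iUnion, not_exists] at hn4
    have hfree : FreeP K v := by
      intro g hg
      by_contra hg1
      have h5 := hn4 ⟨g, hg1⟩
      rw [Set.mem_setOf_eq, not_not] at h5
      obtain ⟨n, hn⟩ := exists_int v hn2 (θ ⟨g, hg1⟩)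
      have h6 : v.valuation M ((θ ⟨g, hg1⟩ : M) - (n : M)) < 1 := by
        have h7 : ((θ ⟨g, hg1⟩ : M) - (n : M)) =
            algebraMap (𝓞 M) M (θ ⟨g, hg1⟩ - (n : 𝓞 M)) := by
          rw [map_sub, map_intCast]
        rw [h7, HeightOneSpectrum.valuation_lt_one_iff_mem]
        exact hn
      have h8 : v.valuation M (g ((θ ⟨g, hg1⟩ : M) - (n : M))) < 1 := by
        rw [hg]
        exact h6
      have h9 : g ((θ ⟨g, hg1⟩ : 𝓞 M) : M) - ((θ ⟨g, hg1⟩ : 𝓞 M) : M) =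
          g ((θ ⟨g, hg1⟩ : M) - (n : M)) - ((θ ⟨g, hg1⟩ : M) - (n : M)) := by
        rw [map_sub, map_intCast]
        ring
      have h10 : v.valuation M (g ((θ ⟨g, hg1⟩ : 𝓞 M) : M) - ((θ ⟨g, hg1⟩ : 𝓞 M) : M)) < 1 := by
        rw [h9]
        exact Valuation.map_sub_lt _ h8 h6
      exact absurd h5 h10.ne
    have h11 := hcon v hn5 hfree hv
    exact hn1 ⟨hn3, h11.1, h11.2⟩
  -- the analytic contradiction
  have key : ∀ s : ℝ, 1 < s → s ≤ 2 →
      1 / 4 * Real.log (1 / (s - 1)) ≤ C₁ + C₃ + C₂ + (hR.toFinset.card : ℝ) := by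
    intro s hs hs2
    have e1 := hC₁ s hs hs2
    have e2 := hC₂ s hs hs2
    have e3 := hC₃ s hs hs2
    have e4 := pz_mono hcov s hs
    have e5 := pz_union ({v : HeightOneSpectrum (𝓞 M) | v.valuation M 2 = 1 ∧ LocSq v (x₀ : M) ∧
        LocSq v (δ (x₀ : M))} ∪
      {v : HeightOneSpectrum (𝓞 M) | ¬ (Ideal.absNorm v.asIdeal).Prime}) R s hs
    have e6 := pz_union {v : HeightOneSpectrum (𝓞 M) | v.valuation M 2 = 1 ∧ LocSq v (x₀ : M) ∧
        LocSq v (δ (x₀ : M))}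
      {v : HeightOneSpectrum (𝓞 M) | ¬ (Ideal.absNorm v.asIdeal).Prime} s hs
    have e7 := pz_finite hR s hs
    linarith
  set C : ℝ := C₁ + C₃ + C₂ + (hR.toFinset.card : ℝ) with hC
  have hpos : 0 < Real.exp (-(4 * |C| + 1)) := Real.exp_pos _
  have hle : Real.exp (-(4 * |C| + 1)) ≤ 1 := by
    rw [Real.exp_le_one_iff]
    have := abs_nonneg C
    linarith
  have h12 := key (1 + Real.exp (-(4 * |C| + 1))) (by linarith) (by linarith)
  rw [add_sub_cancel_left, one_div (Real.exp _), ← Real.exp_neg, Real.log_exp, neg_neg] at h12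
  have h13 := le_abs_self C
  linarith

end Pool.Agent.Helper99.RS
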